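import Pool.Agent.J4H84.QP.Cover

/-!
Sums of few blocks, each of its own period.
-/

set_option autoImplicit false

namespace Pool.Agent.J4H84.QP

theorem blocks_rep {n : ℕ} (b s K U : ℕ) (hb : 2 ≤ b) (e k l : Fin s → ℕ)
    (u : Fin n → Fin s → ℤ) (hk : ∀ j, 1 ≤ k j ∧ k j ≤ K) (hu : ∀ i j, |u i j| ≤ U)
    (a : Fin n → ℤ)
    (ha : ∀ i, a i = ∑ j, u i j * (b : ℤ) ^ (e j) * ∑ t ∈ Finset.range (l j), (b : ℤ) ^ (k j * t)) :
    ∃ (q : ℕ) (E : Fin (s + s) → ℕ) (c : Fin n → Fin (s + s) → ℤ), 1 ≤ q ∧ q ≤ b ^ (s * K) ∧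
      (∀ i j, |c i j| ≤ ((U * b ^ (s * K) : ℕ) : ℤ)) ∧
      ∀ i, (q : ℤ) * a i = ∑ j, c i j * (b : ℤ) ^ (E j) := by
  classical
  have hbz : (2 : ℤ) ≤ b := by exact_mod_cast hb
  have hb1 : (1 : ℤ) ≤ b := by linarith
  obtain ⟨g, hg⟩ : ∃ g : Fin s → ℕ, ∀ j, g j = b ^ (k j) - 1 := ⟨_, fun _ => rfl⟩
  have hg1 : ∀ j, 1 ≤ g j := by
    intro j
    have h1 : 2 ≤ b ^ (k j) := hb.trans (Nat.le_self_pow (by have := (hk j).1; omega) b)
    rw [hg]
    omega
  have hgK : ∀ j, g j ≤ b ^ K := by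
    intro j
    rw [hg]
    exact (Nat.sub_le _ _).trans (Nat.pow_le_pow_right (by omega) (hk j).2)
  have hgz : ∀ j, (g j : ℤ) = (b : ℤ) ^ (k j) - 1 := by
    intro j
    rw [hg, Nat.cast_sub (Nat.one_le_pow _ _ (by omega))]
    push_cast
    rfl
  have hprod : ∀ S : Finset (Fin s), ∏ j ∈ S, g j ≤ b ^ (s * K) := by
    intro S
    calc ∏ j ∈ S, g j ≤ ∏ j, g j :=
          Finset.prod_le_prod_of_subset_of_one_le' (Finset.subset_univ _) fun j _ _ => hg1 j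
      _ ≤ ∏ _j : Fin s, b ^ K := Finset.prod_le_prod' fun j _ => hgK j
      _ = b ^ (s * K) := by
        rw [Finset.prod_const, Finset.card_univ, Fintype.card_fin, ← pow_mul]
        congr 1
        ring
  have hc : ∀ i j, |u i j * ((∏ j' ∈ Finset.univ.erase j, g j' : ℕ) : ℤ)| ≤
      ((U * b ^ (s * K) : ℕ) : ℤ) := by
    intro i j
    rw [abs_mul, abs_of_nonneg (Int.natCast_nonneg _)]
    push_cast
    have h1 : ((∏ j' ∈ Finset.univ.erase j, g j' : ℕ) : ℤ) ≤ ((b ^ (s * K) : ℕ) : ℤ) := by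
      exact_mod_cast hprod _
    push_cast at h1
    exact mul_le_mul (hu i j) h1 (Finset.prod_nonneg fun _ _ => Int.natCast_nonneg _)
      (Int.natCast_nonneg _)
  refine ⟨∏ j, g j, Fin.append (fun j => k j * l j + e j) e,
    fun i => Fin.append (fun j => u i j * ((∏ j' ∈ Finset.univ.erase j, g j' : ℕ) : ℤ))
      (fun j => -(u i j * ((∏ j' ∈ Finset.univ.erase j, g j' : ℕ) : ℤ))),
    Nat.succ_le_of_lt (Finset.prod_pos fun j _ => hg1 j), hprod _, ?_, ?_⟩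
  · intro i j
    refine Fin.addCases (fun t => ?_) (fun t => ?_) j
    · dsimp only
      rw [Fin.append_left]
      exact hc i t
    · dsimp only
      rw [Fin.append_right, abs_neg]
      exact hc i t
  · intro i
    rw [Fin.sum_univ_add]
    simp only [Fin.append_left, Fin.append_right]
    rw [← Finset.sum_add_distrib, ha, Finset.mul_sum]
    refine Finset.sum_congr rfl fun j _ => ?_
    have h1 : (((∏ j, g j : ℕ)) : ℤ) =
        (g j : ℤ) * ((∏ j' ∈ Finset.univ.erase j, g j' : ℕ) : ℤ) := by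
      rw [← Finset.mul_prod_erase _ _ (Finset.mem_univ j)]
      push_cast
      ring
    have h2 : (∑ t ∈ Finset.range (l j), (b : ℤ) ^ (k j * t)) * ((b : ℤ) ^ (k j) - 1) =
        (b : ℤ) ^ (k j * l j) - 1 := by
      simp only [pow_mul]
      exact geom_sum_mul _ _
    rw [h1, hgz j]
    calc ((b : ℤ) ^ (k j) - 1) * ((∏ j' ∈ Finset.univ.erase j, g j' : ℕ) : ℤ) *
          (u i j * (b : ℤ) ^ (e j) * ∑ t ∈ Finset.range (l j), (b : ℤ) ^ (k j * t))
        = u i j * ((∏ j' ∈ Finset.univ.erase j, g j' : ℕ) : ℤ) * (b : ℤ) ^ (e j) *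
          ((∑ t ∈ Finset.range (l j), (b : ℤ) ^ (k j * t)) * ((b : ℤ) ^ (k j) - 1)) := by ring
      _ = _ := by
        rw [h2, pow_add]
        ring

end Pool.Agent.J4H84.QP
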