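import Mathlib
import Pool.Agent.H458.Sp.AllBase
import Pool.Agent.TH539.HLDigits

/-!
Integral points whose multiples by `q` have few digits: the dichotomy.
-/

set_option autoImplicit false

namespace Pool.Agent.J4H84.QP

open Polynomial Pool.Agent.H458.Sp

/-- the degree of a monomial -/
def deg {n : ℕ} (m : Fin n →₀ ℕ) : ℕ := ∑ i, m i

lemma sum_eq_deg {n : ℕ} (m : Fin n →₀ ℕ) : (m.sum fun _ e => e) = deg m := by
  rw [deg, Finsupp.sum_fintype _ _ (fun _ => rfl)]

lemma deg_le_total {n d : ℕ} {f : MvPolynomial (Fin n) ℤ} (hd : f.totalDegree ≤ d)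
    {m : Fin n →₀ ℕ} (hm : m ∈ f.support) : deg m ≤ d := by
  have h1 := MvPolynomial.le_totalDegree hm
  rw [sum_eq_deg] at h1
  exact h1.trans hd

/-- the equation satisfied by `q x` -/
noncomputable def scl {n : ℕ} (f : MvPolynomial (Fin n) ℤ) (d q : ℕ) : MvPolynomial (Fin n) ℤ :=
  ∑ m ∈ f.support, MvPolynomial.monomial m (f.coeff m * (q : ℤ) ^ (d - deg m))

lemma scl_degree {n : ℕ} (f : MvPolynomial (Fin n) ℤ) (d q : ℕ) (hd : f.totalDegree ≤ d) :
    (scl f d q).totalDegree ≤ d := by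
  unfold scl
  refine MvPolynomial.totalDegree_finsetSum_le fun m hm => ?_
  refine (MvPolynomial.totalDegree_monomial_le _ _).trans ?_
  rw [show (m.sum fun _ => id) = deg m from sum_eq_deg m]
  exact deg_le_total hd hm

lemma scl_nz {n : ℕ} (f : MvPolynomial (Fin n) ℤ) (d q : ℕ) (hq : 1 ≤ q) :
    nz (scl f d q) ≤ nz f * (q : ℤ) ^ d := by
  unfold scl
  refine (nz_sum _ _).trans ?_
  rw [nz, Finset.sum_mul]
  refine Finset.sum_le_sum fun m _ => ?_
  refine (nz_monomial _ _).trans ?_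
  have hq1 : (1 : ℤ) ≤ q := by exact_mod_cast hq
  rw [abs_mul, abs_of_nonneg (by positivity : (0 : ℤ) ≤ (q : ℤ) ^ (d - deg m))]
  exact mul_le_mul_of_nonneg_left (pow_le_pow_right₀ hq1 (by omega)) (abs_nonneg _)

lemma scl_eval {n : ℕ} (f : MvPolynomial (Fin n) ℤ) (d q : ℕ) (hd : f.totalDegree ≤ d)
    (a : Fin n → ℤ) :
    MvPolynomial.eval (fun i => (q : ℤ) * a i) (scl f d q) =
      (q : ℤ) ^ d * MvPolynomial.eval a f := by
  rw [scl, map_sum, MvPolynomial.eval_eq', Finset.mul_sum]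
  refine Finset.sum_congr rfl fun m hm => ?_
  have hdm := deg_le_total hd hm
  rw [MvPolynomial.eval_monomial, Finsupp.prod_fintype _ _ (fun _ => pow_zero _)]
  have e1 : ∏ i, ((q : ℤ) * a i) ^ m i = (q : ℤ) ^ deg m * ∏ i, a i ^ m i := by
    simp only [mul_pow]
    rw [Finset.prod_mul_distrib, Finset.prod_pow_eq_pow_sum]
    rfl
  rw [e1]
  have e2 : (q : ℤ) ^ d = (q : ℤ) ^ (d - deg m) * (q : ℤ) ^ deg m := by
    rw [← pow_add, Nat.sub_add_cancel hdm]
  rw [e2]
  ring

lemma scl_comp {n : ℕ} (f : MvPolynomial (Fin n) ℤ) (d q : ℕ) (hd : f.totalDegree ≤ d)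
    {F φ : Fin n → ℤ[X]} {L : ℤ[X]} (h : ∀ i, Polynomial.C (q : ℤ) * φ i = (F i).comp L) :
    (MvPolynomial.aeval F (scl f d q)).comp L =
      Polynomial.C ((q : ℤ) ^ d) * MvPolynomial.aeval φ f := by
  rw [scl, map_sum, Polynomial.sum_comp, MvPolynomial.aeval_def, MvPolynomial.eval₂_eq',
    Finset.mul_sum]
  refine Finset.sum_congr rfl fun m hm => ?_
  have hdm := deg_le_total hd hm
  rw [MvPolynomial.aeval_monomial, Finsupp.prod_fintype _ _ (fun _ => pow_zero _),
    Polynomial.mul_comp, Polynomial.prod_comp]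
  have e3 : ∀ z : ℤ, (algebraMap ℤ ℤ[X]) z = Polynomial.C z := fun z => rfl
  rw [e3, e3, Polynomial.C_comp]
  have e1 : ∏ i, ((F i) ^ m i).comp L = Polynomial.C ((q : ℤ) ^ deg m) * ∏ i, φ i ^ m i := by
    have : ∀ i, ((F i) ^ m i).comp L = Polynomial.C (q : ℤ) ^ m i * φ i ^ m i := by
      intro i
      rw [Polynomial.pow_comp, ← h i, mul_pow]
    simp only [this]
    rw [Finset.prod_mul_distrib, Finset.prod_pow_eq_pow_sum, Polynomial.C_pow]
    rfl
  rw [e1]
  have e2 : (q : ℤ) ^ d = (q : ℤ) ^ (d - deg m) * (q : ℤ) ^ deg m := by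
    rw [← pow_add, Nat.sub_add_cancel hdm]
  rw [e2]
  simp only [Polynomial.C_mul]
  ring

/-- the Taylor expansion at a point where the value is divisible by `q` -/
lemma taylor_div (F : ℤ[X]) (q : ℕ) (T a : ℤ) (h : F.eval T = q * a) :
    ∃ φ : ℤ[X], Polynomial.C (q : ℤ) * φ =
      F.comp (Polynomial.C T + Polynomial.C (q : ℤ) * X) ∧ φ.eval 0 = a := by
  have h1 : (Polynomial.C T + Polynomial.C (q : ℤ) * X) - Polynomial.C T ∣
      (F.map (Polynomial.C : ℤ →+* ℤ[X])).eval (Polynomial.C T + Polynomial.C (q : ℤ) * X) -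
      (F.map (Polynomial.C : ℤ →+* ℤ[X])).eval (Polynomial.C T) := sub_dvd_eval_sub _ _ _
  obtain ⟨u, hu⟩ := h1
  have e1 : (F.map (Polynomial.C : ℤ →+* ℤ[X])).eval (Polynomial.C T) =
      Polynomial.C (F.eval T) := by
    rw [eval_map, eval₂_at_apply]
  have e2 : (F.map (Polynomial.C : ℤ →+* ℤ[X])).eval
      (Polynomial.C T + Polynomial.C (q : ℤ) * X) =
      F.comp (Polynomial.C T + Polynomial.C (q : ℤ) * X) := by
    rw [eval_map]; rfl
  rw [e1, e2, h] at hu
  refine ⟨Polynomial.C a + X * u, ?_, by simp⟩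
  rw [C_mul] at hu
  linear_combination -hu

/-- **The dichotomy.** An integral zero `a` of `f` such that `q a` has few digits in base `b` is
small, or it lies on a nonconstant polynomial curve of zeros of `f`. -/
theorem dich {n r : ℕ} (f : MvPolynomial (Fin n) ℤ) (d : ℕ) (hd : 1 ≤ d)
    (hf : f.totalDegree ≤ d) (A : ℕ) (hA : 1 ≤ A) (hfA : nz f ≤ A) (b q : ℕ) (hb : 2 ≤ b)
    (hq : 1 ≤ q) (B : ℕ) (e : Fin r → ℕ) (c : Fin n → Fin r → ℤ) (hc : ∀ i j, |c i j| ≤ B)
    (a : Fin n → ℤ) (ha : ∀ i, (q : ℤ) * a i = ∑ j, c i j * (b : ℤ) ^ (e j))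
    (h0 : MvPolynomial.eval a f = 0) :
    (∃ φ : Fin n → ℤ[X], MvPolynomial.aeval φ f = 0 ∧ (∀ i, (φ i).eval 0 = a i) ∧
      ∃ i, (φ i).natDegree ≠ 0) ∨
    ∀ i, (q : ℤ) * |a i| ≤
      ((r * B * ((1 + A * q ^ d) * (r * B) ^ d) ^ (4 * (4 * d) ^ r) : ℕ) : ℤ) := by
  have hqz : (q : ℤ) ≠ 0 := by
    have : (0 : ℤ) < q := by exact_mod_cast hq
    exact this.ne'
  have hq0 : (0 : ℤ) ≤ q := by positivity
  have h1 := affine_dichotomy_all (n := n) (r := r) {scl f d q} d hd (A * q ^ d)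
    (Nat.mul_pos hA (Nat.pow_pos hq))
    (by
      intro F hF
      rw [Set.mem_singleton_iff.1 hF]
      exact scl_degree f d q hf)
    (by
      intro F hF
      rw [Set.mem_singleton_iff.1 hF]
      refine (scl_nz f d q hq).trans ?_
      push_cast
      exact mul_le_mul_of_nonneg_right hfA (by positivity))
    b hb B e c hc (fun i => (q : ℤ) * a i) ha
    (by
      intro F hF
      rw [Set.mem_singleton_iff.1 hF, scl_eval f d q hf, h0, mul_zero])
  rcases h1 with ⟨p, hp, hpe, i0, hi0⟩ | h1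
  · left
    have hφ : ∀ i, ∃ φ : ℤ[X], Polynomial.C (q : ℤ) * φ =
        (p i).comp (Polynomial.C (b : ℤ) + Polynomial.C (q : ℤ) * X) ∧ φ.eval 0 = a i := fun i =>
      taylor_div (p i) q b (a i) (hpe i)
    choose φ hφ using hφ
    refine ⟨φ, ?_, fun i => (hφ i).2, i0, ?_⟩
    · have h2 := scl_comp f d q hf fun i => (hφ i).1
      rw [hp _ rfl, zero_comp] at h2
      rcases mul_eq_zero.1 h2.symm with h3 | h3
      · exact absurd (C_eq_zero.1 h3) (pow_ne_zero _ hqz)
      · exact h3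
    · have h2 : (Polynomial.C (q : ℤ) * φ i0).natDegree = (p i0).natDegree := by
        rw [(hφ i0).1, natDegree_comp]
        have : (Polynomial.C (b : ℤ) + Polynomial.C (q : ℤ) * X).natDegree = 1 := by
          rw [add_comm]
          exact natDegree_linear hqz
        rw [this, mul_one]
      rw [natDegree_C_mul hqz] at h2
      rw [h2]
      exact hi0
  · right
    intro i
    have h2 := h1 i
    rwa [abs_mul, abs_of_nonneg hq0] at h2

/-- a zero on a polynomial curve is not isolated -/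
theorem no_curve {n : ℕ} (f : MvPolynomial (Fin n) ℤ)
    (hfin : {x : Fin n → ℤ | MvPolynomial.eval x f = 0}.Finite) (φ : Fin n → ℤ[X])
    (h : MvPolynomial.aeval φ f = 0) (i : Fin n) : (φ i).natDegree = 0 := by
  refine not_finite_of_curve {f} ?_ φ (fun F hF => by rw [Set.mem_singleton_iff.1 hF]; exact h) i
  refine hfin.subset fun x hx => ?_
  exact hx f rfl

open Pool.Agent.TH539.HLSparse in
/-- the coordinates of an integral point, multiplied by `b ^ k - 1`, have as many digits as the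
coordinates have digit changes altogether -/
theorem merge {n : ℕ} (b k : ℕ) (hb : 2 ≤ b) (x : Fin n → ℤ) :
    ∃ (e : Fin (∑ i, digitChanges b k (x i)) → ℕ)
      (c : Fin n → Fin (∑ i, digitChanges b k (x i)) → ℤ), (∀ i j, |c i j| ≤ b) ∧
      ∀ i, (((b ^ k - 1 : ℕ) : ℤ)) * x i = ∑ j, c i j * (b : ℤ) ^ (e j) := by
  classical
  have hk1 : 1 ≤ b ^ k := Nat.one_le_pow _ _ (by omega)
  rw [Nat.cast_sub hk1]
  push_cast
  choose e c h1 h2 using fun i => changes_rep b k hb (x i)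
  refine ⟨fun j => e (finSigmaFinEquiv.symm j).1 (finSigmaFinEquiv.symm j).2,
    fun i j => if (finSigmaFinEquiv.symm j).1 = i then
      c (finSigmaFinEquiv.symm j).1 (finSigmaFinEquiv.symm j).2 else 0, ?_, ?_⟩
  · intro i j
    dsimp only
    split_ifs
    · exact h1 _ _
    · simp
  · intro i
    rw [h2 i]
    rw [Equiv.sum_comp finSigmaFinEquiv.symm (fun p : (Σ i, Fin (digitChanges b k (x i))) =>
      (if p.1 = i then c p.1 p.2 else 0) * (b : ℤ) ^ e p.1 p.2)]
    rw [Fintype.sum_sigma]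
    rw [Finset.sum_eq_single i]
    · simp
    · intro j _ hj
      refine Finset.sum_eq_zero fun t _ => ?_
      simp [hj]
    · intro h
      exact absurd (Finset.mem_univ i) h

end Pool.Agent.J4H84.QP
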