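import Pool.Agent.J4H84.QP.Core

/-!
Digits that are periodic outside few intervals, and sums of few periodic blocks.
-/

set_option autoImplicit false

namespace Pool.Agent.J4H84.QP

open Pool.Agent.TH539.HLSparse

theorem cover_nat (b k n h r : ℕ) (hb : 2 ≤ b) (e : Fin r → ℕ)
    (hcov : ∀ t, n / b ^ t % b ≠ b ^ k * n / b ^ t % b → ∃ j, e j ≤ t ∧ t < e j + h) :
    ∃ c : Fin r → ℤ, (∀ j, |c j| ≤ (b : ℤ) ^ h) ∧
      ((b : ℤ) ^ k - 1) * n = ∑ j, c j * (b : ℤ) ^ (e j) := by
  classical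
  set N := b ^ k * n with hN
  have h1 : b ^ k * n < b ^ N := Nat.lt_pow_self (by omega)
  have hk1 : 1 ≤ b ^ k := Nat.one_le_pow _ _ (by omega)
  have h2 : n < b ^ N := lt_of_le_of_lt (Nat.le_mul_of_pos_left _ hk1) h1
  have hbz : (2 : ℤ) ≤ b := by exact_mod_cast hb
  obtain ⟨δ, hδ⟩ : ∃ δ : ℕ → ℤ, ∀ t, δ t = ((b ^ k * n / b ^ t % b : ℕ) : ℤ) -
      ((n / b ^ t % b : ℕ) : ℤ) := ⟨_, fun _ => rfl⟩
  have hδ1 : ∀ t, |δ t| ≤ (b : ℤ) - 1 := by
    intro t
    have h3 := Nat.mod_lt (b ^ k * n / b ^ t) (by omega : 0 < b)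
    have h4 := Nat.mod_lt (n / b ^ t) (by omega : 0 < b)
    rw [hδ]
    generalize b ^ k * n / b ^ t % b = u at h3 ⊢
    generalize n / b ^ t % b = v at h4 ⊢
    rw [abs_le]
    constructor <;> omega
  have hsum : ((b : ℤ) ^ k - 1) * n = ∑ t ∈ Finset.range N, δ t * (b : ℤ) ^ t := by
    have h6 := digit_sum b (b ^ k * n) N h1
    have h7 := digit_sum b n N h2
    calc ((b : ℤ) ^ k - 1) * n = ((b ^ k * n : ℕ) : ℤ) - (n : ℤ) := by push_cast; ring
      _ = _ := by
        conv_lhs => rw [h6, h7]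
        rw [← Finset.sum_sub_distrib]
        exact Finset.sum_congr rfl fun i _ => by rw [hδ]; ring
  have hJ : ∀ t, ∃ J : Option (Fin r), (J = none → δ t = 0) ∧
      ∀ j, J = some j → e j ≤ t ∧ t < e j + h := by
    intro t
    by_cases h0 : δ t = 0
    · exact ⟨none, fun _ => h0, fun j hj => by simp at hj⟩
    · obtain ⟨j, hj⟩ := hcov t (by
        intro hcon
        apply h0
        rw [hδ, hcon, sub_self])
      refine ⟨some j, fun h => by simp at h, fun j' hj' => ?_⟩
      rw [Option.some.injEq] at hj'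
      rw [← hj']
      exact hj
  choose J hJ0 hJ1 using hJ
  refine ⟨fun j => ∑ t ∈ (Finset.range N).filter (fun t => J t = some j),
    δ t * (b : ℤ) ^ (t - e j), ?_, ?_⟩
  · intro j
    refine (Finset.abs_sum_le_sum_abs _ _).trans ?_
    have h3 : ∀ t ∈ (Finset.range N).filter (fun t => J t = some j),
        |δ t * (b : ℤ) ^ (t - e j)| ≤ ((b : ℤ) - 1) * (b : ℤ) ^ (t - e j) := by
      intro t _
      rw [abs_mul, abs_of_nonneg (by positivity : (0 : ℤ) ≤ (b : ℤ) ^ (t - e j))]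
      exact mul_le_mul_of_nonneg_right (hδ1 t) (by positivity)
    refine (Finset.sum_le_sum h3).trans ?_
    have hinj : Set.InjOn (fun t => t - e j)
        ((Finset.range N).filter (fun t => J t = some j) : Finset ℕ) := by
      intro t ht t' ht' htt
      simp only [Finset.coe_filter, Finset.mem_range, Set.mem_ofPred_eq] at ht ht'
      have h4 := (hJ1 t j ht.2).1
      have h5 := (hJ1 t' j ht'.2).1
      dsimp only at htt
      omega
    have h4 : ∑ t ∈ (Finset.range N).filter (fun t => J t = some j),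
        ((b : ℤ) - 1) * (b : ℤ) ^ (t - e j) =
        ∑ s ∈ ((Finset.range N).filter (fun t => J t = some j)).image (fun t => t - e j),
          ((b : ℤ) - 1) * (b : ℤ) ^ s :=
      (Finset.sum_image (f := fun s => ((b : ℤ) - 1) * (b : ℤ) ^ s) hinj).symm
    rw [h4]
    have h5 : ((Finset.range N).filter (fun t => J t = some j)).image (fun t => t - e j) ⊆
        Finset.range h := by
      intro s hs
      obtain ⟨t, ht, rfl⟩ := Finset.mem_image.1 hs
      rw [Finset.mem_filter] at ht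
      have h6 := hJ1 t j ht.2
      rw [Finset.mem_range]
      omega
    refine (Finset.sum_le_sum_of_subset_of_nonneg h5 (fun s _ _ => ?_)).trans ?_
    · have : (0 : ℤ) ≤ (b : ℤ) - 1 := by linarith
      positivity
    · rw [← Finset.mul_sum, mul_comm, geom_sum_mul]
      linarith
  · rw [hsum]
    have h3 : ∀ j : Fin r, (∑ t ∈ (Finset.range N).filter (fun t => J t = some j),
        δ t * (b : ℤ) ^ (t - e j)) * (b : ℤ) ^ (e j) =
        ∑ t ∈ Finset.range N, if J t = some j then δ t * (b : ℤ) ^ t else 0 := by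
      intro j
      rw [Finset.sum_mul, Finset.sum_filter]
      refine Finset.sum_congr rfl fun t _ => ?_
      split_ifs with h4
      · rw [mul_assoc, ← pow_add, Nat.sub_add_cancel (hJ1 t j h4).1]
      · rfl
    rw [Finset.sum_congr rfl fun j _ => h3 j, Finset.sum_comm]
    refine Finset.sum_congr rfl fun t _ => ?_
    rcases hopt : J t with _ | j0
    · rw [hJ0 t hopt]
      simp
    · rw [Finset.sum_eq_single j0]
      · simp
      · intro j _ hj
        rw [if_neg]
        intro h5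
        rw [Option.some.injEq] at h5
        exact hj h5.symm
      · intro h5
        exact absurd (Finset.mem_univ _) h5

theorem cover_int (b k h r : ℕ) (x : ℤ) (hb : 2 ≤ b) (e : Fin r → ℕ)
    (hcov : ∀ t, x.natAbs / b ^ t % b ≠ b ^ k * x.natAbs / b ^ t % b →
      ∃ j, e j ≤ t ∧ t < e j + h) :
    ∃ c : Fin r → ℤ, (∀ j, |c j| ≤ (b : ℤ) ^ h) ∧
      ((b : ℤ) ^ k - 1) * x = ∑ j, c j * (b : ℤ) ^ (e j) := by
  obtain ⟨c, h1, h2⟩ := cover_nat b k x.natAbs h r hb e hcov
  rcases Int.natAbs_eq x with hx | hx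
  · refine ⟨c, h1, ?_⟩
    conv_lhs => rw [hx]
    exact h2
  · refine ⟨fun j => - c j, fun j => by rw [abs_neg]; exact h1 j, ?_⟩
    have h3 : ((b : ℤ) ^ k - 1) * x = - (((b : ℤ) ^ k - 1) * (x.natAbs : ℤ)) := by
      conv_lhs => rw [hx]
      ring
    rw [h3, h2, ← Finset.sum_neg_distrib]
    exact Finset.sum_congr rfl fun j _ => by ring

/-- the shape of the bound -/
theorem bound_shape (d r B A q : ℕ) (hd : 1 ≤ d) (hq : 1 ≤ q) :
    r * B * ((1 + A * q ^ d) * (r * B) ^ d) ^ (4 * (4 * d) ^ r) ≤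
      ((1 + A) * q * (r * B)) ^ ((4 * d) ^ (r + 1) + 1) := by
  have hqd : 1 ≤ q ^ d := Nat.one_le_pow _ _ hq
  have h1 : 1 + A * q ^ d ≤ ((1 + A) * q) ^ d := by
    calc 1 + A * q ^ d ≤ q ^ d + A * q ^ d := Nat.add_le_add_right hqd _
      _ = (1 + A) * q ^ d := by ring
      _ ≤ (1 + A) ^ d * q ^ d :=
        Nat.mul_le_mul_right _ (Nat.le_self_pow (by omega) _)
      _ = ((1 + A) * q) ^ d := (mul_pow _ _ _).symm
  have h2 : (1 + A * q ^ d) * (r * B) ^ d ≤ ((1 + A) * q * (r * B)) ^ d := by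
    rw [mul_pow ((1 + A) * q)]
    exact Nat.mul_le_mul_right _ h1
  have h3 : r * B ≤ (1 + A) * q * (r * B) :=
    Nat.le_mul_of_pos_left _ (Nat.mul_pos (by omega) hq)
  calc r * B * ((1 + A * q ^ d) * (r * B) ^ d) ^ (4 * (4 * d) ^ r)
      ≤ ((1 + A) * q * (r * B)) * (((1 + A) * q * (r * B)) ^ d) ^ (4 * (4 * d) ^ r) :=
        Nat.mul_le_mul h3 (Nat.pow_le_pow_left h2 _)
    _ = ((1 + A) * q * (r * B)) ^ ((4 * d) ^ (r + 1) + 1) := by
      rw [← pow_mul, ← pow_succ']
      congr 1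
      ring

end Pool.Agent.J4H84.QP
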