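import Pool.Agent.J4H84.QP.Cover

/-!
Digits that are periodic outside few intervals, without conditions at both ends.
-/

set_option autoImplicit false

namespace Pool.Agent.J4H84.QP

theorem change_cases (b k m t : ℕ) (hb : 2 ≤ b)
    (h : m / b ^ t % b ≠ b ^ k * m / b ^ t % b) :
    t < k ∨ (k ≤ t ∧ b ^ t ≤ m ∧ m / b ^ t % b ≠ m / b ^ (t - k) % b) ∨
      (Nat.log b m + 1 ≤ t ∧ t < Nat.log b m + 1 + k) := by
  rcases Nat.lt_or_ge t k with h1 | h1
  · exact Or.inl h1
  right
  have hbpos : 0 < b := by omega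
  have h2 : b ^ k * m / b ^ t = m / b ^ (t - k) := by
    have h3 : b ^ t = b ^ k * b ^ (t - k) := by
      rw [← pow_add]
      congr 1
      omega
    rw [h3, Nat.mul_div_mul_left _ _ (Nat.pow_pos hbpos)]
  rw [h2] at h
  rcases Nat.lt_or_ge t (Nat.log b m + 1) with h3 | h3
  · left
    refine ⟨h1, ?_, h⟩
    have hm : m ≠ 0 := by
      rintro rfl
      simp at h
    exact Nat.pow_le_of_le_log hm (by omega)
  · right
    refine ⟨h3, ?_⟩
    by_contra h4
    push Not at h4
    have hlt : m < b ^ (Nat.log b m + 1) := Nat.lt_pow_succ_log_self (by omega) m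
    have h5 : m < b ^ t := lt_of_lt_of_le hlt (Nat.pow_le_pow_right hbpos h3)
    have h6 : m < b ^ (t - k) := lt_of_lt_of_le hlt (Nat.pow_le_pow_right hbpos (by omega))
    rw [Nat.div_eq_of_lt h5, Nat.div_eq_of_lt h6] at h
    exact h rfl

/-- periodic digits outside `r` intervals of length `h`, between the lowest `k` places and the
leading digit, are covered by `r + (n + 1)` intervals of length `h + k` -/
theorem periodic_cover {n : ℕ} (b k r h : ℕ) (hb : 2 ≤ b) (x : Fin n → ℤ) (e : Fin r → ℕ)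
    (he : ∀ i t, k ≤ t → b ^ t ≤ (x i).natAbs →
      (x i).natAbs / b ^ t % b ≠ (x i).natAbs / b ^ (t - k) % b → ∃ j, e j ≤ t ∧ t < e j + h) :
    ∃ E : Fin (r + (n + 1)) → ℕ, ∀ i t,
      (x i).natAbs / b ^ t % b ≠ b ^ k * (x i).natAbs / b ^ t % b →
        ∃ j, E j ≤ t ∧ t < E j + (h + k) := by
  refine ⟨Fin.append e (Fin.cons 0 fun i => Nat.log b (x i).natAbs + 1), fun i t ht => ?_⟩
  rcases change_cases b k (x i).natAbs t hb ht with h1 | ⟨h1, h2, h3⟩ | ⟨h1, h2⟩
  · refine ⟨Fin.natAdd r 0, ?_, ?_⟩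
    · rw [Fin.append_right]
      simp
    · rw [Fin.append_right]
      simp
      omega
  · obtain ⟨j, h4, h5⟩ := he i t h1 h2 h3
    refine ⟨Fin.castAdd (n + 1) j, ?_, ?_⟩
    · rw [Fin.append_left]
      exact h4
    · rw [Fin.append_left]
      omega
  · refine ⟨Fin.natAdd r i.succ, ?_, ?_⟩
    · rw [Fin.append_right]
      simpa using h1
    · rw [Fin.append_right]
      simp
      omega

end Pool.Agent.J4H84.QP
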